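import Pool.Agent.W394.BQN.Stm2

/-!
# Regular local rings of dimension at most one
-/

set_option autoImplicit false

namespace Pool.Agent.W442.BQN

open Pool.Agent.W394.BQN

theorem t_RD : S_RD := by
  intro S _ _ h
  have hreg := IsRegularLocalRing.spanFinrank_maximalIdeal (R := S)
  set m := IsLocalRing.maximalIdeal S with hm
  have hfg : m.FG := IsNoetherian.noetherian m
  have hle : m.spanFinrank ≤ 1 := by
    rw [← hreg] at h
    exact_mod_cast h
  have hfin := Submodule.FG.finite_generators hfg
  have hncard := Submodule.FG.generators_ncard hfg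
  have hspan := Submodule.span_generators m
  rw [← hncard, Set.ncard_le_one_iff_eq hfin] at hle
  have hdom : IsDomain S := by
    rcases hle with he | ⟨t, ht⟩
    · have hbot : m = ⊥ := by
        rw [← hspan, he, Submodule.span_empty]
      exact (IsLocalRing.isField_iff_maximalIdeal_eq.mpr hbot).isDomain
    · have hmt : m = Ideal.span {t} := by
        rw [Ideal.span, ← ht, hspan]
      have h1 : ¬ Ring.KrullDimLE 0 S := by
        intro h0
        rw [Ring.krullDimLE_iff, ← hreg, ← hncard, ht, Set.ncard_singleton] at h0
        norm_num at h0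
      rw [Ring.krullDimLE_zero_iff] at h1
      push Not at h1
      obtain ⟨P, hP, hPm⟩ := h1
      have hPle : P ≤ m := IsLocalRing.le_maximalIdeal hP.ne_top
      have htP : t ∉ P := by
        intro h2
        apply hPm
        have : m = P := le_antisymm (by rw [hmt, Ideal.span_le]; simpa using h2) hPle
        rw [← this]
        exact IsLocalRing.maximalIdeal.isMaximal S
      have hPbot : P = ⊥ := by
        refine Submodule.eq_bot_of_le_smul_of_le_jacobson_bot m P (IsNoetherian.noetherian P) ?_ ?_
        · intro x hx
          have hxm := hPle hx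
          rw [hmt, Ideal.mem_span_singleton] at hxm
          obtain ⟨y, rfl⟩ := hxm
          have hy : y ∈ P := (hP.mem_or_mem hx).resolve_left htP
          exact Submodule.smul_mem_smul (by rw [hmt]; exact Ideal.mem_span_singleton_self t) hy
        · rw [IsLocalRing.jacobson_eq_maximalIdeal ⊥ bot_ne_top]
      rw [hPbot] at hP
      exact IsDomain.of_bot_isPrime S
  refine ⟨hdom, ?_⟩
  have hp : m.IsPrincipal := by
    rcases hle with he | ⟨t, ht⟩
    · exact ⟨0, by rw [← hspan, he]; simp⟩
    · exact ⟨t, by rw [← ht, hspan]⟩
  exact ((tfae_of_isNoetherianRing_of_isLocalRing_of_isDomain S).out 4 0).mp hp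

end Pool.Agent.W442.BQN
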